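import Pool.Agent.Helper61.EO.Trans

/-!
# Ekedahl-Oort types of Artin-Schreier curves with pole orders dividing `p - 1`

Let `k` be an algebraically closed field of characteristic `p`, and let `X : y ^ p - y = f (x)` and
`X' : y ^ p - y = f' (x)` be Artin-Schreier curves over `k`, where `f` and `f'` have the same
multiset of orders of poles, all dividing `p - 1`. Then the Dieudonne modules of `Jac(X)[p]` and
`Jac(X')[p]` (the first de Rham cohomology with `F` and `V`) are isomorphic and the Ekedahl-Oort
types (elementary sequences) agree. All definitions are in `Pool/Agent/Helper61/EO/Curve.lean`.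
-/

set_option autoImplicit false

namespace Pool.Agent.Results.MP_6f9fbb_ag.EkedahlOortPoleOrders

open Pool.Agent.Helper61.EO.Curve

/-- The curves with function fields `K` and `K'` are `y ^ p - y = f (x)` and `y ^ p - y = f' (x)`,
where `f` and `f'` have the same pole orders (at least one), all dividing `p - 1`.
The conclusion: there is a `k`-linear isomorphism of the de Rham cohomology groups which commutes
with `F` and `V`; the canonical filtrations have the same pairs `(dim W, dim V W)`; `F` and `V` are
well defined maps; and `dim H¹_dR = (p - 1) * (∑ (d + 1) - 2)`, which is `2 g`. -/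
theorem result (p : ℕ) (hp : p.Prime) (k : Type) [Field k] [DecidableEq k] [IsAlgClosed k]
    [CharP k p] (K K' : Type) [Field K] [Field K'] [Algebra k K] [Algebra k K']
    (f f' : RatFunc k) (hK : IsArtinSchreier k K p f) (hK' : IsArtinSchreier k K' p f')
    (h0 : poleOrders f ≠ 0) (hd : ∀ d ∈ poleOrders f, d ∣ p - 1)
    (hff' : poleOrders f' = poleOrders f) :
    (∃ Φ : H1dR k K ≃ₗ[k] H1dR k K', IsDieudonneIso p Φ) ∧
    elementaryPairs k K p = elementaryPairs k K' p ∧
    (∀ v : H1dR k K, ∃! w, IsF p v w) ∧ (∀ v : H1dR k K, ∃! w, IsV p v w) ∧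
    Module.Finite k (H1dR k K) ∧
    Module.finrank k (H1dR k K) = (p - 1) * (((poleOrders f).map fun d => d + 1).sum - 2) :=
  main p hp k K K' f f' hK hK' h0 hd hff'

end Pool.Agent.Results.MP_6f9fbb_ag.EkedahlOortPoleOrders
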